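import Mathlib

open MeasureTheory Set
open scoped InnerProductSpace ENNReal

namespace Pool.Agent.Results.MP_5df5df_gt.TwoSuccessiveFail

/-- Euclidean 3-space. -/
abbrev E3 : Type := EuclideanSpace ℝ (Fin 3)

/-- A convex body: a compact convex set with nonempty interior. -/
def IsBody (K : Set E3) : Prop :=
  Convex ℝ K ∧ IsCompact K ∧ (interior K).Nonempty

/-- The X-ray of `K` in the direction `u`: the length of the intersection of `K` with the line
through `x` parallel to `u` (for a unit vector `u`). -/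
noncomputable def xray (u : E3) (K : Set E3) (x : E3) : ℝ≥0∞ :=
  volume {t : ℝ | x + t • u ∈ K}

/-- The shear `x ↦ x - ⟨p, x⟩ u`. -/
noncomputable def sh (u p x : E3) : E3 := x - ⟪p, x⟫_ℝ • u

/-- The sheared unit ball. -/
def ell (u p : E3) : Set E3 := {x : E3 | ‖sh u p x‖ ≤ 1}

lemma sh_add (u p x y : E3) : sh u p (x + y) = sh u p x + sh u p y := by
  simp only [sh, inner_add_right, add_smul]; abel

lemma sh_smul (u p : E3) (c : ℝ) (x : E3) : sh u p (c • x) = c • sh u p x := by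
  simp only [sh, inner_smul_right, smul_sub, mul_smul]

lemma continuous_sh (u p : E3) : Continuous (sh u p) := by
  unfold sh
  fun_prop

lemma ell_convex (u p : E3) : Convex ℝ (ell u p) := by
  intro x hx y hy a b ha hb hab
  simp only [ell, mem_ofPred_eq] at *
  rw [sh_add, sh_smul, sh_smul]
  calc ‖a • sh u p x + b • sh u p y‖ ≤ ‖a • sh u p x‖ + ‖b • sh u p y‖ := norm_add_le _ _
    _ = a * ‖sh u p x‖ + b * ‖sh u p y‖ := by
        rw [norm_smul, norm_smul, Real.norm_of_nonneg ha, Real.norm_of_nonneg hb]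
    _ ≤ a * 1 + b * 1 := by gcongr
    _ = 1 := by linarith

lemma ell_isBody (u p : E3) (hu : ‖u‖ = 1) (hp : ⟪p, u⟫_ℝ = 0) : IsBody (ell u p) := by
  refine ⟨ell_convex u p, ?_, ?_⟩
  · -- compactness: closed and bounded
    refine Metric.isCompact_of_isClosed_isBounded ?_ ?_
    · exact isClosed_le (continuous_sh u p).norm continuous_const
    · refine (Metric.isBounded_iff_subset_closedBall 0).2 ⟨1 + ‖p‖, ?_⟩
      intro x hx
      simp only [ell, mem_ofPred_eq] at hx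
      rw [mem_closedBall_zero_iff]
      -- x = sh x + ⟨p, sh x⟩ u
      have h1 : ⟪p, sh u p x⟫_ℝ = ⟪p, x⟫_ℝ := by
        simp only [sh, inner_sub_right, inner_smul_right, hp]; ring
      have h2 : x = sh u p x + ⟪p, sh u p x⟫_ℝ • u := by
        rw [h1]; simp only [sh]; abel
      calc ‖x‖ = ‖sh u p x + ⟪p, sh u p x⟫_ℝ • u‖ := by rw [← h2]
        _ ≤ ‖sh u p x‖ + ‖⟪p, sh u p x⟫_ℝ • u‖ := norm_add_le _ _
        _ = ‖sh u p x‖ + |⟪p, sh u p x⟫_ℝ| := by rw [norm_smul, hu, mul_one, Real.norm_eq_abs]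
        _ ≤ 1 + ‖p‖ * ‖sh u p x‖ := by
            gcongr
            exact abs_real_inner_le_norm _ _
        _ ≤ 1 + ‖p‖ * 1 := by gcongr
        _ = 1 + ‖p‖ := by ring
  · refine ⟨0, ?_⟩
    have hopen : IsOpen {x : E3 | ‖sh u p x‖ < 1} := isOpen_lt (continuous_sh u p).norm continuous_const
    refine mem_interior.2 ⟨{x : E3 | ‖sh u p x‖ < 1}, ?_, hopen, ?_⟩
    · intro x hx
      have hx' : ‖sh u p x‖ < 1 := hx
      exact hx'.le
    · show ‖sh u p 0‖ < 1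
      simp [sh]

/-- The length of the solution set of `‖X + t W‖ ≤ 1` depends only on `‖W‖²` and the
discriminant. -/
lemma volume_line {X X' W W' : E3} (hW : W ≠ 0) (h1 : ‖W‖ ^ 2 = ‖W'‖ ^ 2)
    (h2 : ⟪X, W⟫_ℝ ^ 2 - ‖W‖ ^ 2 * (‖X‖ ^ 2 - 1) = ⟪X', W'⟫_ℝ ^ 2 - ‖W'‖ ^ 2 * (‖X'‖ ^ 2 - 1)) :
    volume {t : ℝ | ‖X + t • W‖ ≤ 1} = volume {t : ℝ | ‖X' + t • W'‖ ≤ 1} := by
  have ha : 0 < ‖W‖ ^ 2 := by positivity
  have ha' : 0 < ‖W'‖ ^ 2 := by rw [← h1]; exact ha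
  have key : ∀ (Y V : E3), 0 < ‖V‖ ^ 2 →
      volume {t : ℝ | ‖Y + t • V‖ ≤ 1} =
        volume {s : ℝ | (‖V‖ ^ 2 * s) ^ 2 ≤ ⟪Y, V⟫_ℝ ^ 2 - ‖V‖ ^ 2 * (‖Y‖ ^ 2 - 1)} := by
    intro Y V hV
    have hset : {t : ℝ | ‖Y + t • V‖ ≤ 1} =
        (fun t : ℝ => t + ⟪Y, V⟫_ℝ / ‖V‖ ^ 2) ⁻¹'
          {s : ℝ | (‖V‖ ^ 2 * s) ^ 2 ≤ ⟪Y, V⟫_ℝ ^ 2 - ‖V‖ ^ 2 * (‖Y‖ ^ 2 - 1)} := by
      ext t
      simp only [mem_ofPred_eq, mem_preimage]
      have e1 : ‖Y + t • V‖ ^ 2 = ‖Y‖ ^ 2 + 2 * t * ⟪Y, V⟫_ℝ + t ^ 2 * ‖V‖ ^ 2 := by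
        rw [norm_add_sq_real, inner_smul_right, norm_smul, mul_pow, Real.norm_eq_abs, sq_abs]
        ring
      have e2 : ‖V‖ ^ 2 * (t + ⟪Y, V⟫_ℝ / ‖V‖ ^ 2) = ‖V‖ ^ 2 * t + ⟪Y, V⟫_ℝ := by
        rw [mul_add, mul_div_cancel₀ _ hV.ne']
      rw [e2]
      have e3 : ‖Y + t • V‖ ≤ 1 ↔ ‖Y + t • V‖ ^ 2 ≤ 1 := by
        rw [sq_le_one_iff₀ (norm_nonneg _)]
      rw [e3, e1]
      constructor
      · intro h
        nlinarith
      · intro h
        by_contra hcon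
        push Not at hcon
        have : 0 < ‖V‖ ^ 2 * (‖Y‖ ^ 2 + 2 * t * ⟪Y, V⟫_ℝ + t ^ 2 * ‖V‖ ^ 2 - 1) := by
          apply mul_pos hV; linarith
        nlinarith
    rw [hset, measure_preimage_add_right]
  rw [key X W ha, key X' W' ha', ← h2, ← h1]

lemma line_mem (u p v x : E3) (t : ℝ) :
    x + t • v ∈ ell u p ↔ ‖sh u p x + t • sh u p v‖ ≤ 1 := by
  simp only [ell, mem_ofPred_eq, sh_add, sh_smul]

/-- All sheared balls have the X-ray of the unit ball in direction `u`. -/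
lemma xray_u (u p : E3) (hu : ‖u‖ = 1) (hp : ⟪p, u⟫_ℝ = 0) (x : E3) :
    xray u (ell u p) x = xray u (ell u 0) x := by
  have hW : ∀ q : E3, ⟪q, u⟫_ℝ = 0 → sh u q u = u := by
    intro q hq; simp [sh, hq]
  have h0 : ⟪(0 : E3), u⟫_ℝ = 0 := inner_zero_left _
  simp only [xray, line_mem, hW p hp, hW 0 h0]
  have hu0 : u ≠ 0 := by
    intro h; rw [h, norm_zero] at hu; exact zero_ne_one hu
  apply volume_line hu0 rfl
  have huu : ⟪u, u⟫_ℝ = 1 := by rw [real_inner_self_eq_norm_sq, hu]; norm_num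
  have e1 : ∀ q : E3, ⟪sh u q x, u⟫_ℝ = ⟪x, u⟫_ℝ - ⟪q, x⟫_ℝ := by
    intro q; simp only [sh, inner_sub_left, inner_smul_left, huu]; simp
  have e2 : ∀ q : E3, ‖sh u q x‖ ^ 2 = ‖x‖ ^ 2 - 2 * ⟪q, x⟫_ℝ * ⟪x, u⟫_ℝ + ⟪q, x⟫_ℝ ^ 2 := by
    intro q
    simp only [sh]
    rw [norm_sub_sq_real, inner_smul_right, norm_smul, hu, mul_one, Real.norm_eq_abs, sq_abs]
    ring
  rw [e1, e1, e2, e2, hu]
  ring

/-- The two bodies `ell u (p₀ ± m)` have the same X-ray in direction `v`. -/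
lemma xray_v (u v : E3) (hu : ‖u‖ = 1) (A β : ℝ) (hA : 0 < A) (a' : E3)
    (ha' : ⟪a', u⟫_ℝ = 0) (hAa : ‖a'‖ ^ 2 = A) (hv : v = a' + β • u) (x : E3) :
    xray v (ell u ((β / A) • a' + a')) x = xray v (ell u ((β / A) • a' - a')) x := by
  have huu : ⟪u, u⟫_ℝ = 1 := by rw [real_inner_self_eq_norm_sq, hu]; norm_num
  have haa : ⟪a', a'⟫_ℝ = A := by rw [real_inner_self_eq_norm_sq, hAa]
  have hua : ⟪u, a'⟫_ℝ = 0 := by rw [real_inner_comm]; exact ha'
  simp only [xray, line_mem]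
  -- compute the sheared direction for a general sign
  have hsv : ∀ ε : ℝ, sh u ((β / A) • a' + ε • a') v = a' - (ε * A) • u := by
    intro ε
    have : ⟪(β / A) • a' + ε • a', v⟫_ℝ = β + ε * A := by
      rw [hv]
      simp only [inner_add_left, inner_add_right, inner_smul_left, inner_smul_right, haa, ha']
      simp
      field_simp
    simp only [sh]
    rw [this, hv]
    module
  have hsx : ∀ ε : ℝ, sh u ((β / A) • a' + ε • a') x =
      x - ((β / A + ε) * ⟪a', x⟫_ℝ) • u := by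
    intro ε
    simp only [sh, inner_add_left, inner_smul_left]
    simp
    module
  have n1 : ∀ ε : ℝ, ε ^ 2 = 1 → ‖a' - (ε * A) • u‖ ^ 2 = A + A ^ 2 := by
    intro ε hε
    rw [norm_sub_sq_real, inner_smul_right, norm_smul, hu, ha', hAa, mul_one, Real.norm_eq_abs,
      sq_abs]
    linear_combination A ^ 2 * hε
  have n2 : ∀ ε : ℝ, ‖x - ((β / A + ε) * ⟪a', x⟫_ℝ) • u‖ ^ 2 =
      ‖x‖ ^ 2 - 2 * ((β / A + ε) * ⟪a', x⟫_ℝ) * ⟪x, u⟫_ℝ +
        ((β / A + ε) * ⟪a', x⟫_ℝ) ^ 2 := by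
    intro ε
    rw [norm_sub_sq_real, inner_smul_right, norm_smul, hu, mul_one, Real.norm_eq_abs, sq_abs]
    ring
  have n3 : ∀ ε : ℝ, ⟪x - ((β / A + ε) * ⟪a', x⟫_ℝ) • u, a' - (ε * A) • u⟫_ℝ =
      ⟪a', x⟫_ℝ - (ε * A) * (⟪x, u⟫_ℝ - (β / A + ε) * ⟪a', x⟫_ℝ) := by
    intro ε
    simp only [inner_sub_left, inner_sub_right, inner_smul_left, inner_smul_right, huu, hua]
    rw [real_inner_comm x a']
    simp
  have hp : (β / A) • a' + a' = (β / A) • a' + (1 : ℝ) • a' := by rw [one_smul]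
  have hm : (β / A) • a' - a' = (β / A) • a' + (-1 : ℝ) • a' := by module
  rw [hp, hm, hsv, hsv, hsx, hsx]
  have hne : a' - ((1 : ℝ) * A) • u ≠ 0 := by
    intro h
    have := n1 1 (by norm_num)
    rw [h, norm_zero] at this
    nlinarith
  apply volume_line hne
  · rw [n1 1 (by norm_num), n1 (-1) (by norm_num)]
  · rw [n1 1 (by norm_num), n1 (-1) (by norm_num), n2, n2, n3, n3]
    field_simp
    ring

lemma exists_perp (u : E3) : ∃ e : E3, ‖e‖ = 1 ∧ ⟪e, u⟫_ℝ = 0 := by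
  classical
  have hdim : Module.finrank ℝ E3 = 3 := by simp
  have h1 : Module.finrank ℝ (Submodule.span ℝ ({u} : Set E3)) ≤ 1 := (finrank_span_le_card _).trans (by simp)
  have hne : (Submodule.span ℝ ({u} : Set E3))ᗮ ≠ ⊥ := by
    intro hbot
    have := Submodule.finrank_add_finrank_orthogonal (Submodule.span ℝ ({u} : Set E3))
    rw [hbot, hdim] at this
    simp at this
    omega
  obtain ⟨w, hw, hw0⟩ := Submodule.exists_mem_ne_zero_of_ne_bot hne
  refine ⟨(‖w‖⁻¹) • w, ?_, ?_⟩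
  · rw [norm_smul, norm_inv, norm_norm, inv_mul_cancel₀ (norm_ne_zero_iff.2 hw0)]
  · have : ⟪u, w⟫_ℝ = 0 := hw u (Submodule.mem_span_singleton_self u)
    rw [inner_smul_left, real_inner_comm, this]; simp

/-- Two different shears give different bodies. -/
lemma ell_ne (u p q e : E3) (hu : ‖u‖ = 1) (he : ‖e‖ = 1) (heu : ⟪e, u⟫_ℝ = 0)
    (hp : ⟪p, u⟫_ℝ = 0) (hq : ⟪q, u⟫_ℝ = 0) (hpq : ⟪p - q, e⟫_ℝ ≠ 0) : ell u p ≠ ell u q := by
  intro h
  set x : E3 := e + ⟪p, e⟫_ℝ • u with hx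
  have h1 : sh u p x = e := by
    simp only [sh, hx, inner_add_right, inner_smul_right, hp]
    module
  have h2 : sh u q x = e + ⟪p - q, e⟫_ℝ • u := by
    simp only [sh, hx, inner_add_right, inner_smul_right, hq, inner_sub_left]
    module
  have hxp : x ∈ ell u p := by
    simp only [ell, mem_ofPred_eq, h1, he]; exact le_refl _
  rw [h] at hxp
  simp only [ell, mem_ofPred_eq, h2] at hxp
  have h3 : ‖e + ⟪p - q, e⟫_ℝ • u‖ ^ 2 = 1 + ⟪p - q, e⟫_ℝ ^ 2 := by
    rw [norm_add_sq_real, inner_smul_right, norm_smul, hu, he, heu, mul_one, Real.norm_eq_abs,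
      sq_abs]
    ring
  have h4 : ‖e + ⟪p - q, e⟫_ℝ • u‖ ^ 2 ≤ 1 := by
    rw [sq_le_one_iff₀ (norm_nonneg _)]; exact hxp
  have h5 : 0 < ⟪p - q, e⟫_ℝ ^ 2 := by positivity
  linarith

/-- **No two-step procedure successively determines all convex bodies of 3-space.**
Whatever the first direction `u₁`, and whatever the rule `F` that chooses the second direction
from the first X-ray, there are two different convex bodies that the procedure cannot tell
apart: they have the same X-ray in direction `u₁`, hence the same second direction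
`F (xray u₁ K)`, and the same X-ray in that second direction. -/
theorem result (u₁ : E3) (hu₁ : ‖u₁‖ = 1) (F : (E3 → ℝ≥0∞) → E3) (hF : ∀ f, ‖F f‖ = 1) :
    ∃ K K' : Set E3, IsBody K ∧ IsBody K' ∧ K ≠ K' ∧
      xray u₁ K = xray u₁ K' ∧
      xray (F (xray u₁ K)) K = xray (F (xray u₁ K)) K' := by
  set v : E3 := F (xray u₁ (ell u₁ 0)) with hv
  have hvn : ‖v‖ = 1 := hF _
  have hX : ∀ p : E3, ⟪p, u₁⟫_ℝ = 0 → xray u₁ (ell u₁ p) = xray u₁ (ell u₁ 0) := fun p hp =>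
    funext fun x => xray_u u₁ p hu₁ hp x
  have huu : ⟪u₁, u₁⟫_ℝ = 1 := by rw [real_inner_self_eq_norm_sq, hu₁]; norm_num
  set β : ℝ := ⟪v, u₁⟫_ℝ with hβ
  set a' : E3 := v - β • u₁ with ha'
  have ha'u : ⟪a', u₁⟫_ℝ = 0 := by
    simp only [ha', inner_sub_left, inner_smul_left, huu]; simp [hβ]
  have hva : v = a' + β • u₁ := by rw [ha']; abel
  by_cases h0 : a' = 0
  · -- the second direction is parallel to the first
    obtain ⟨e, he, heu⟩ := exists_perp u₁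
    have hvu : v = β • u₁ := by rw [hva, h0, zero_add]
    have hβ2 : β ^ 2 = 1 := by
      have : ‖v‖ ^ 2 = 1 := by rw [hvn]; norm_num
      rw [hvu, norm_smul, hu₁, mul_one, Real.norm_eq_abs, sq_abs] at this
      exact this
    refine ⟨ell u₁ 0, ell u₁ e, ell_isBody _ _ hu₁ (inner_zero_left _), ell_isBody _ _ hu₁ heu,
      ?_, (hX e heu).symm, ?_⟩
    · apply ell_ne u₁ 0 e e hu₁ he heu (inner_zero_left _) heu
      simp only [zero_sub, inner_neg_left, real_inner_self_eq_norm_sq, he]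
      norm_num
    · rw [← hv]
      funext x
      have hneg : ∀ K : Set E3, xray v K x = xray u₁ K x := by
        intro K
        have hβ3 : β = 1 ∨ β = -1 := by
          have : (β - 1) * (β + 1) = 0 := by linear_combination hβ2
          rcases mul_eq_zero.1 this with h | h
          · left; linarith
          · right; linarith
        rcases hβ3 with h | h
        · simp only [xray, hvu, h, one_smul]
        · simp only [xray, hvu, h]
          have : {t : ℝ | x + t • (-1 : ℝ) • u₁ ∈ K} = Neg.neg ⁻¹' {t : ℝ | x + t • u₁ ∈ K} := by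
            ext t
            simp
          rw [this, Measure.measure_preimage_neg]
      rw [hneg, hneg, hX e heu]
  · -- the second direction is not parallel to the first
    have hA : 0 < ‖a'‖ ^ 2 := by positivity
    have hp1 : ⟪(β / ‖a'‖ ^ 2) • a' + a', u₁⟫_ℝ = 0 := by
      simp only [inner_add_left, inner_smul_left, ha'u]; simp
    have hp2 : ⟪(β / ‖a'‖ ^ 2) • a' - a', u₁⟫_ℝ = 0 := by
      simp only [inner_sub_left, inner_smul_left, ha'u]; simp
    refine ⟨ell u₁ ((β / ‖a'‖ ^ 2) • a' + a'), ell u₁ ((β / ‖a'‖ ^ 2) • a' - a'),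
      ell_isBody _ _ hu₁ hp1, ell_isBody _ _ hu₁ hp2, ?_, ?_, ?_⟩
    · have hn : ‖a'‖ ≠ 0 := norm_ne_zero_iff.2 h0
      apply ell_ne u₁ _ _ ((‖a'‖⁻¹) • a') hu₁ ?_ ?_ hp1 hp2
      · have : ((β / ‖a'‖ ^ 2) • a' + a') - ((β / ‖a'‖ ^ 2) • a' - a') = (2 : ℝ) • a' := by
          module
        rw [this, inner_smul_left, inner_smul_right, real_inner_self_eq_norm_sq]
        simp
        exact h0
      · rw [norm_smul, norm_inv, norm_norm, inv_mul_cancel₀ hn]
      · rw [inner_smul_left, ha'u]; simp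
    · rw [hX _ hp1, hX _ hp2]
    · rw [hX _ hp1, ← hv]
      funext x
      exact xray_v u₁ v hu₁ (‖a'‖ ^ 2) β hA a' ha'u rfl hva x

end Pool.Agent.Results.MP_5df5df_gt.TwoSuccessiveFail
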